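import Pool.Agent.H1.TB.Sup

/-!
# The strong monodromy conjecture, topological version: polynomials of degree at most two in all but one variable

Let `f ∈ ℂ[t, x_1, …, x_m]`, `f ≠ 0`, have degree at most two in `x_1, …, x_m`:

`f = c(t) + ∑_j b_j(t) x_j + ∑_(j, k) q_jk(t) x_j x_k`, with ARBITRARY `c, b_j, q_jk ∈ ℂ[t]`.

So `{f = 0}` is any family of affine quadrics over the line, with arbitrary degenerate fibres; `f` may be
reducible and non-reduced, and its singular locus may have any dimension. We prove Q1 for all these `f`, and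
for all products `∏_k f_k ^ (a_k)` of powers of such polynomials in separate variables: every pole of the
GLOBAL topological zeta function is a root of the Bernstein-Sato polynomial.

Method (`Pool/Agent/H1/TB`).

(1) Along a fibre `t = t₀` (`NF`, `Mdl`). By completing squares over the discrete valuation ring of the line,
`D f = ∑_j U_j t ^ (m_j) y_j ^ (e_j) + U₀ t ^ k` (or without the last term), where `e_j ∈ {1, 2}`, the `y_j` restrict
to linearly independent affine functions on the fibre `t = 0` and `D, U_j, U₀` to constants `≠ 0`. Modulo every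
power `t ^ L` the units `U_j / U₀` have roots, and with an affine automorphism of the fibre this is a change of
variables which identifies the sets of `L`-jets with origin in the fibre of `f` and of the model
`∑_j t ^ (m_j) x_j ^ (e_j) + t ^ k` (`CV`, `CF`). The model has affinely independent exponents, so its motivic zeta
function over the fibre is known; its poles are roots of all the `b` at some point (`RP`), which can be moved
into the fibre by a one-parameter group, and then to a point of the fibre for `f` by a formal change of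
coordinates (`FT`).

(2) Over an open part of the line (`GN`, `CG`, `Gen`). There `D f = ∑_j U_j y_j ^ (e_j) + c`, with
`D, U_j, c ∈ ℂ[t]` which do not vanish, or `c = 0`, and affine functions `y_j` over `ℂ[t]` which are a part of
coordinates. The zero set is smooth, or `f` is a relative cone over the line; the new pair is `(-|T|, 2)`, and
`-|T|/2` is a root since the relations between the derivatives of `∑ x_j ^ 2` are trivial.

(3) The line is the union of the open part and finitely many points (`Asm`).
-/

set_option autoImplicit false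

namespace Pool.Agent.H1.Old.QuadricBundlesGlobal

open MvPolynomial Pool.Agent.Q57.MD
open Pool.Agent.Q57.MC (zetaId_one locEq1_of_eq top_poles sf_forced)
open Pool.Agent.W428.MOT (MK Lu)
open Pool.Agent.TH192.MT (zetaM)
open Pool.Agent.TH192.MU (IsTopZeta)
open Pool.Agent.H628R4.TP (IsBFunction)

/-- `f` has degree at most two in the variables other than `x_t`: all its monomials
`∏ x_i ^ (m_i)` have `∑_(i ≠ t) m_i ≤ 2`. -/
def QuadricOverLine {N : ℕ} (t : Fin N) (f : MvPolynomial (Fin N) ℂ) : Prop :=
  ∀ m ∈ f.support, ∑ i ∈ Finset.univ.erase t, m i ≤ 2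

/-- **Q1 for the products of powers, in separate variables, of polynomials of degree at most two in all
but one variable.** The variables of `f_k` are `x_1, …, x_(N_k)`; the bijection `e` gives them new names, so that
`F = ∏_k f_k ^ (a_k)` is a polynomial in `n = ∑_k N_k` variables.

`Z` is the topological zeta function of `F` (`IsTopZeta E ε (zetaM F univ {c ≠ 0}) Z`: for `s = 1, 2, …`,
`Z(s)` is the value under `ε` of the motivic zeta function of `F` at `T = 𝕃 ^ (-s)`, after a realisation `E`
with values in a domain `R`, where `ε (E 𝕃) = 1` and `E 𝕃 ≠ 1`; for instance the Euler characteristic, from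
the Hodge-Deligne polynomials), `s₀` is a pole of `Z`, and `b` satisfies `b(s) F ^ s = P(s) F ^ (s + 1)`,
`P(s)` in the Weyl algebra, polynomial in `s` (for instance `b = b_F`). Then `b(s₀) = 0`. -/
theorem result {K n : ℕ} {N : Fin K → ℕ} (f : (k : Fin K) → MvPolynomial (Fin (N k)) ℂ)
    (t : (k : Fin K) → Fin (N k)) (hf : ∀ k, QuadricOverLine (t k) (f k)) (hne : ∀ k, f k ≠ 0)
    (a : Fin K → ℕ) (ha : ∀ k, 1 ≤ a k) (e : (Σ k, Fin (N k)) ≃ Fin n)
    {R : Type} [CommRing R] [IsDomain R] (E : MK ℂ →+* R) (ε : R →+* ℂ)
    (hε : ε (E ((Lu ℂ : (MK ℂ)ˣ) : MK ℂ)) = 1) (hE : E ((Lu ℂ : (MK ℂ)ˣ) : MK ℂ) ≠ 1)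
    (Z : RatFunc ℂ) (hZ : IsTopZeta E ε
      (zetaM (∏ k, rename (fun x => e ⟨k, x⟩) (f k) ^ a k) Set.univ {c | c ≠ 0}) Z) (s₀ : ℂ)
    (hs : Z.denom.eval s₀ = 0) (b : Polynomial ℂ)
    (hb : IsBFunction (∏ k, rename (fun x => e ⟨k, x⟩) (f k) ^ a k) b) : b.eval s₀ = 0 := by
  classical
  rw [← zetaId_one] at hZ
  obtain ⟨S, hS, hz⟩ := Pool.Agent.H1.TB.gm_products f t hf hne a ha e
  obtain ⟨q, hq, rfl⟩ := top_poles E ε hε hE _ (fun q hq => ⟨(hS q hq).1, (hS q hq).2.1⟩) _ hz Z
    hZ s₀ hs
  obtain ⟨p, hp⟩ := (hS q hq).2.2
  exact sf_forced hp b (locEq1_of_eq _ b hb)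

end Pool.Agent.H1.Old.QuadricBundlesGlobal
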